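import Pool.Agent.TH323.NoLUR

/-!
# A Banach space with an extended Markushevich basis and without equivalent LUR norm

The space is `ℓ_∞ ⊕ ℓ₁(I)` where `I` is the set of the bounded sequences `x` with `‖x n‖ ≤ n + 1`.
The vectors of the basis are `(e_n, 0)` and `(x, δ_x)`, the functionals are
`(u, z) ↦ u n - ∑ z_x x(n)` and `(u, z) ↦ z_x`.
-/

set_option autoImplicit false

open Filter Topology

namespace Pool.Agent.Results.MP_ea77cd_an.NoLURNorm

/-- `(x i, f i)` is an extended Markushevich basis of `E`: biorthogonal, the closed linear span of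
the vectors `x i` is `E` and the functionals `f i` are total. -/
def IsExtendedMBasis {𝕜 E ι : Type} [RCLike 𝕜] [NormedAddCommGroup E] [NormedSpace 𝕜 E]
    (x : ι → E) (f : ι → (E →L[𝕜] 𝕜)) : Prop :=
  (∀ i, f i (x i) = 1) ∧ (∀ i j, i ≠ j → f i (x j) = 0) ∧
    Dense (Submodule.span 𝕜 (Set.range x) : Set E) ∧ ∀ z : E, (∀ i, f i z = 0) → z = 0

/-- `p` is a norm on `E` equivalent to the given one. -/
def IsEquivalentNorm {𝕜 E : Type} [RCLike 𝕜] [NormedAddCommGroup E] [NormedSpace 𝕜 E]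
    (p : Seminorm 𝕜 E) : Prop :=
  ∃ c C : ℝ, 0 < c ∧ 0 < C ∧ ∀ z : E, c * ‖z‖ ≤ p z ∧ p z ≤ C * ‖z‖

/-- `p` is locally uniformly convex: if `p x = p (u n) = 1` and `p (u n + x) → 2`, then
`p (u n - x) → 0`. -/
def IsLUR {𝕜 E : Type} [RCLike 𝕜] [NormedAddCommGroup E] [NormedSpace 𝕜 E]
    (p : Seminorm 𝕜 E) : Prop :=
  ∀ (x : E) (u : ℕ → E), p x = 1 → (∀ n, p (u n) = 1) →
    Tendsto (fun n => p (u n + x)) atTop (𝓝 2) → Tendsto (fun n => p (u n - x)) atTop (𝓝 0)

open Pool.Agent.TH323.MBasis in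
/-- Both for real and for complex scalars there is a Banach space with an extended Markushevich
basis on which no equivalent norm is locally uniformly convex. -/
theorem result (𝕜 : Type) [RCLike 𝕜] :
    ∃ (E : Type) (_ : NormedAddCommGroup E) (_ : NormedSpace 𝕜 E),
      CompleteSpace E ∧
      (∃ (ι : Type) (x : ι → E) (f : ι → (E →L[𝕜] 𝕜)), IsExtendedMBasis x f) ∧
      ∀ p : Seminorm 𝕜 E, IsEquivalentNorm p → ¬ IsLUR p := by
  refine ⟨E 𝕜, inferInstance, inferInstance, inferInstance, ⟨ℕ ⊕ I 𝕜, v, f, ?_, ?_, ?_, ?_⟩, ?_⟩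
  · intro i
    rw [f_v, if_pos rfl]
  · intro i j hij
    rw [f_v, if_neg hij]
  · rw [Submodule.dense_iff_topologicalClosure_eq_top]
    exact fundamental
  · exact total
  · rintro p ⟨c, C, hc, -, hp⟩ hlur
    obtain ⟨x, u, h1, h2, h3, h4⟩ := no_lur (p.comp (LinearMap.inl 𝕜 (Linf 𝕜) (L1 𝕜))) c C hc
      (fun z => by
        have := (hp (z, 0)).1
        rw [Prod.norm_def] at this
        simpa using this)
      (fun z => by
        have := (hp (z, 0)).2
        rw [Prod.norm_def] at this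
        simpa using this)
    have e1 : ∀ z w : Linf 𝕜, ((z, 0) : E 𝕜) + (w, 0) = (z + w, 0) := fun z w => by simp
    have e2 : ∀ z w : Linf 𝕜, ((z, 0) : E 𝕜) - (w, 0) = (z - w, 0) := fun z w => by simp
    refine h4 ?_
    have h5 := hlur (x, 0) (fun n => (u n, 0)) h1 h2 (by simp_rw [e1]; exact h3)
    simp_rw [e2] at h5
    exact h5

end Pool.Agent.Results.MP_ea77cd_an.NoLURNorm
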